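import Pool.Agent.Q170.TT.Gord
import Pool.Agent.Results.MP_c95b3b_ag.RadicalMembers

/-!
# MP_c95b3b_ag: Zilber's conjecture for one-parameter families of subvarieties of tori with generic
orders, with `(r - 1) (n - r + 1) + 1` degenerate members

**Families.** Let `A_1, …, A_r ⊂ ℤ^n` be arbitrary finite nonempty sets of exponents (`r ≥ 1`; in the
theorem `r ≤ n + 1`) and let `c_jβ` be nonzero polynomials, `β ∈ A_j`, with complex coefficients, in one
variable `t` (`TropicallyGenericFamilies.member`). Let `X_t ⊂ (ℂ^×)^n` be the algebraic set defined by the `r` Laurent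
polynomials `∑_β c_jβ(t) x^β`.

**Theorem.** Let `N = (r - 1) (n - r + 1) + 1` (`needed`). For all `A_1, …, A_r` and `M` there is a
polynomial `P`, not the zero polynomial, in variables `e_ljβ`, `l ≤ M`, `j ≤ r`, `β ∈ A_j`, such that for
all systems of `M` orders with `P(e) ≠ 0` no linear subspace of `ℚ^n` of dimension less than `r` meets `N`
of the `M` tropicalizations `Trop A (e_l)`, and such that the following holds.

Let `Γ` be a finite set of numbers of a field `K` which contains the coefficients of the family, and let
the family degenerate at the different rational numbers `α_1, …, α_M`, with orders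
`e_ljβ = ord_{α_l} (c_jβ)` such that `P(e) ≠ 0`.
1. If `M ≥ N`, `NoAtypical` holds for all `t` which are transcendental over `K`, and if
   `M ≥ N + 2 d`, for all but finitely many algebraic `t` of degree at most `d`.
2. If `M ≥ N + 2` and the `α_l` are nonzero and have distinct absolute values, `NoAtypical` holds for
   all but finitely many `t` of which some power is rational.
3. If `M ≥ N` and the `α_l` are not `0, 1, -1`, for all but finitely many roots of unity `t`.

`NoAtypical` for `X_t` says: `X_t` has no atypical intersection with the torsion cosets, and more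
generally with the cosets `η H` of all algebraic subgroups `H` of the torus by all points `η` whose
coordinates are units of the integral closure of `ℤ[Γ]` in `ℂ`: every irreducible subset of
`X_t ∩ η H` has dimension at most `dim H - r`; in particular the set `U(Y)` of the problem is empty for
all components `Y` of `X_t` (they have dimension `n - r`).

The number `(r - 1) (n - r + 1)` is the dimension of the Grassmannian of the subspaces of dimension
`r - 1`, and to meet the tropicalization of a degenerate member, which has codimension `r`, is at least
one condition for such a subspace. The number `N` does not depend on the supports `A_j`. In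
`general_position` of the starting file `TropicallyGenericFamilies` it is
`k ∏ |A_j| (|A_j| - 1) + 1` with `k ≥ r - 1`.

**Proof.** A subspace `L` of dimension at most `r - 1` is contained in the image of a matrix with a
unit matrix as a minor, so it is given by `(r - 1) (n - r + 1)` numbers, and for every one of the `N`
places a point of `L` is given by `r - 1` numbers. The `r N` differences of the orders of the coefficients
at which the minimum is attained are polynomials in these
`(r - 1) (n - r + 1) + (r - 1) N < r N` numbers, so they satisfy an algebraic relation. The rest follows from the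
criteria of the starting files.
-/

set_option autoImplicit false

namespace Pool.Agent.Results.MP_c95b3b_ag.GenericOrders

open MvPolynomial
open Pool.Agent.Q170.TT (Mon needed GenericFor)
open Pool.Agent.Results.MP_c95b3b_ag.TropicallyGenericFamilies (Trop InGeneralPosition NoAtypical
  DegreeAtMost)

/-- Generic systems of orders, and Zilber's conjecture for the members of the families with such
orders. -/
theorem result (n r : ℕ) (hr : 1 ≤ r) (hrn : r ≤ n + 1) (A : Fin r → Finset (Fin n → ℤ))
    (hA : ∀ j, (A j).Nonempty) (M : ℕ) :
    ∃ P : MvPolynomial (Fin M × Mon A) ℚ, P ≠ 0 ∧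
    (∀ e : Fin M → Fin r → (Fin n → ℤ) → ℤ, GenericFor P e →
      InGeneralPosition r (needed n r) fun l => Trop A (e l)) ∧
    (∀ (K : Subfield ℂ) (c : Fin r → (Fin n → ℤ) → Polynomial K),
      (∀ j, ∀ β ∈ A j, c j β ≠ 0) → ∀ α : Fin M → ℚ,
      GenericFor P (fun l => TropicallyGenericFamilies.order c (α l)) →
      ∀ Γ : Set ℂ, Γ.Finite → Γ ⊆ K →
      ((Function.Injective α → needed n r ≤ M → ∀ t : ℂ, Transcendental K t →
        NoAtypical r Γ (TropicallyGenericFamilies.member A c t)) ∧
      (Function.Injective α → ∀ d : ℕ, needed n r + 2 * d ≤ M →
        {t : ℂ | DegreeAtMost d t ∧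
          ¬ NoAtypical r Γ (TropicallyGenericFamilies.member A c t)}.Finite) ∧
      ((∀ l, α l ≠ 0) → (∀ l l', l ≠ l' → |α l| ≠ |α l'|) → needed n r + 2 ≤ M →
        {t : ℂ | RadicalMembers.IsRadical t ∧
          ¬ NoAtypical r Γ (TropicallyGenericFamilies.member A c t)}.Finite) ∧
      ((∀ l, α l ≠ 0) → (∀ l, |α l| ≠ 1) → needed n r ≤ M →
        {t : ℂ | RadicalMembers.IsRootOfUnity t ∧
          ¬ NoAtypical r Γ (TropicallyGenericFamilies.member A c t)}.Finite))) := by
  obtain ⟨P, hP0, hP⟩ := Pool.Agent.Q170.TT.generic (M := M) hr hrn A
  refine ⟨P, hP0, fun e he => hP e he, ?_⟩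
  intro K c hc α hα Γ hΓ hΓK
  have hgen := hP (fun l => TropicallyGenericFamilies.order c (α l)) hα
  refine ⟨fun hinj hM => ?_, fun hinj d hM => ?_, fun h0 hdist hM => ?_, fun h0 hne hM => ?_⟩
  · exact (TropicallyGenericFamilies.result r (needed n r) A hA c hc α hinj hgen Γ hΓ hΓK).1 hM
  · exact (TropicallyGenericFamilies.result r (needed n r) A hA c hc α hinj hgen Γ hΓ hΓK).2 d hM
  · exact (RadicalMembers.result r (needed n r) A hA c hc α h0 hgen Γ hΓ hΓK).1 hdist hM
  · exact (RadicalMembers.result r (needed n r) A hA c hc α h0 hgen Γ hΓ hΓK).2 hne hM

end Pool.Agent.Results.MP_c95b3b_ag.GenericOrders
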