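import Pool.Agent.Q170.TT.Gord
import Pool.Agent.Results.MP_c95b3b_ag.FinitelyGeneratedFields

/-!
# MP_c95b3b_ag: Zilber's conjecture over finitely generated fields for families of subvarieties of tori
with generic orders

**Families.** Let `A_1, …, A_r ⊂ ℤ^n` be arbitrary finite nonempty sets of exponents (`r ≥ 1`; in the
theorem `r ≤ n + 1`) and let `c_jβ` be nonzero polynomials, `β ∈ A_j`, with complex coefficients, in one
variable `t` (`FinitelyGeneratedFields.member`). Let `X_t ⊂ (ℂ^×)^n` be the algebraic set defined by the `r` Laurent
polynomials `∑_β c_jβ(t) x^β`.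

**Theorem.** Let `N = (r - 1) (n - r + 1) + 1` (`needed`). For all `A_1, …, A_r` and `M` there is a
polynomial `P`, not the zero polynomial, in variables `e_ljβ`, `l ≤ M`, `j ≤ r`, `β ∈ A_j`, such that for
all systems of `M` orders with `P(e) ≠ 0` no linear subspace of `ℚ^n` of dimension less than `r` meets `N`
of the `M` tropicalizations `Trop A (e_l)`, and such that the following holds.

Let `Γ` be a finite set of complex numbers and let `D_1, …, D_M` be finite sets of complex numbers, such
that the family degenerates at all elements of `D_l` with the orders `e_ljβ`, `P(e) ≠ 0`. If the union of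
any `M - N + 1` or more of the `D_l` has at least three (two) elements, `NoAtypical` holds for all but
finitely many `t` of every finitely generated subfield (subring) of `ℂ`. For instance it is sufficient
that there are `N + 2` disjoint nonempty sets, or `N` sets with three elements.

`NoAtypical` for `X_t` says: `X_t` has no atypical intersection with the torsion cosets, and more
generally with the cosets `η H` of all algebraic subgroups `H` of the torus by all points `η` whose
coordinates are units of the integral closure of `ℤ[Γ]` in `ℂ`: every irreducible subset of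
`X_t ∩ η H` has dimension at most `dim H - r`; in particular the set `U(Y)` of the problem is empty for
all components `Y` of `X_t` (they have dimension `n - r`).

The number `(r - 1) (n - r + 1)` is the dimension of the Grassmannian of the subspaces of dimension
`r - 1`, and to meet the tropicalization of a degenerate member, which has codimension `r`, is at least
one condition for such a subspace. The number `N` does not depend on the supports `A_j`. In
`general_position` of the starting file `TropicallyGenericFamilies` it is
`k ∏ |A_j| (|A_j| - 1) + 1` with `k ≥ r - 1`.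

**Proof.** A subspace `L` of dimension at most `r - 1` is contained in the image of a matrix with a
unit matrix as a minor, so it is given by `(r - 1) (n - r + 1)` numbers, and for every one of the `N`
places a point of `L` is given by `r - 1` numbers. The `r N` differences of the orders of the coefficients
at which the minimum is attained are polynomials in these
`(r - 1) (n - r + 1) + (r - 1) N < r N` numbers, so they satisfy an algebraic relation. The rest follows from the
criterion of the starting file `FinitelyGeneratedFields`.
-/

set_option autoImplicit false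

namespace Pool.Agent.Results.MP_c95b3b_ag.GenericOrdersFGFields

open MvPolynomial
open Pool.Agent.Q170.TT (Mon needed GenericFor)
open Pool.Agent.Results.MP_c95b3b_ag.TropicallyGenericFamilies (Trop InGeneralPosition NoAtypical)

/-- Generic systems of orders, and Zilber's conjecture over finitely generated fields. -/
theorem result (n r : ℕ) (hr : 1 ≤ r) (hrn : r ≤ n + 1) (A : Fin r → Finset (Fin n → ℤ))
    (hA : ∀ j, (A j).Nonempty) (M : ℕ) :
    ∃ P : MvPolynomial (Fin M × Mon A) ℚ, P ≠ 0 ∧
    (∀ e : Fin M → Fin r → (Fin n → ℤ) → ℤ, GenericFor P e →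
      InGeneralPosition r (needed n r) fun l => Trop A (e l)) ∧
    (∀ (c : Fin r → (Fin n → ℤ) → Polynomial ℂ), (∀ j, ∀ β ∈ A j, c j β ≠ 0) →
      ∀ (D : Fin M → Finset ℂ) (e : Fin M → Fin r → (Fin n → ℤ) → ℕ),
      (∀ l, ∀ α ∈ D l, ∀ j, ∀ β ∈ A j, (c j β).rootMultiplicity α = e l j β) →
      GenericFor P (fun l j β => (e l j β : ℤ)) → ∀ Γ : Set ℂ, Γ.Finite → ∀ F : Finset ℂ,
      ((∀ I : Finset (Fin M), M < I.card + needed n r → 3 ≤ (I.biUnion D).card) →
        {t : ℂ | t ∈ Subfield.closure (F : Set ℂ) ∧
          ¬ NoAtypical r Γ (FinitelyGeneratedFields.member A c t)}.Finite) ∧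
      ((∀ I : Finset (Fin M), M < I.card + needed n r → 2 ≤ (I.biUnion D).card) →
        {t : ℂ | t ∈ Subring.closure (F : Set ℂ) ∧
          ¬ NoAtypical r Γ (FinitelyGeneratedFields.member A c t)}.Finite)) := by
  obtain ⟨P, hP0, hP⟩ := Pool.Agent.Q170.TT.generic (M := M) hr hrn A
  refine ⟨P, hP0, fun e he => hP e he, ?_⟩
  intro c hc D e he hα Γ hΓ F
  have hgen := hP (fun l j β => (e l j β : ℤ)) hα
  refine FinitelyGeneratedFields.result r (needed n r) A hA c hc D ?_ Γ hΓ F
  intro L hL S hS α hαD
  obtain ⟨l, hl, hw⟩ := hgen L hL S hS
  refine ⟨l, hl, fun w hwL hwT => hw w hwL ?_⟩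
  intro j
  obtain ⟨a, ha, b, hb, hab, h1, h2⟩ := hwT j
  have h3 : ∀ β ∈ A j, FinitelyGeneratedFields.order c (α l) j β = (e l j β : ℤ) := by
    intro β hβ
    rw [FinitelyGeneratedFields.order, he l _ (hαD l hl) j β hβ]
  refine ⟨a, ha, b, hb, hab, ?_, fun β hβ => ?_⟩
  · rw [h3 a ha, h3 b hb] at h1
    exact h1
  · have h4 := h2 β hβ
    rw [h3 a ha, h3 β hβ] at h4
    exact h4

end Pool.Agent.Results.MP_c95b3b_ag.GenericOrdersFGFields
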