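import Pool.Agent.Q170.TT.Gord

/-!
# MP_c95b3b_ag: Zilber's conjecture for almost all integral members of families of subvarieties of tori
with generic orders along `(r - 1) (n - r + 1) + 1` hypersurfaces

**Families.** Let `A_1, …, A_r ⊂ ℤ^n` be arbitrary finite nonempty sets of exponents (`r ≥ 1`; in the
theorem `r ≤ n + 1`) and let `c_jβ` be nonzero polynomials, `β ∈ A_j`, with complex coefficients, in `s`
variables `t = (t_1, …, t_s)` (`Pool.Agent.Q170.TT.member`). Let `X_t ⊂ (ℂ^×)^n` be the algebraic set defined by the `r` Laurent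
polynomials `∑_β c_jβ(t) x^β`.

**Theorem.** Let `N = (r - 1) (n - r + 1) + 1` (`needed`). For all `A_1, …, A_r` and `M = N` there is a
polynomial `P`, not the zero polynomial, in variables `e_ljβ`, `l ≤ M`, `j ≤ r`, `β ∈ A_j`, such that for
all systems of `M` orders with `P(e) ≠ 0` no linear subspace of `ℚ^n` of dimension less than `r` meets `N`
of the `M` tropicalizations `Trop A (e_l)`, and such that the following holds.

Let `Γ` be a finite set of complex numbers and let the family degenerate along the `N` hypersurfaces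
`D_l = 0`, `D_l ∈ ℤ[t]`, outside the hypersurfaces `E_l = 0`, in the following sense:
`c_jβ = D_l ^ e_ljβ b_ljβ` and `b_ljβ(t) ≠ 0` if `D_l(t) = 0` and `E_l(t) ≠ 0`. Suppose `P(e) ≠ 0`.
1. There is a number `Q` such that `NoAtypical` holds for `X_t` for all `t ∈ ℤ^s` such that every one of
   the `N` integers `D_l(t)` is different from `0` and has a prime factor `p > Q` which does not divide
   `E_l(t)`.
2. If moreover the `D_l` are not constant and `D_l`, `E_l` have no common factor in `ℤ[t]`, then for
   every `ε > 0` the number of the `t ∈ ℤ^s` with `|t_j| ≤ H` for which `NoAtypical` does not hold for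
   `X_t` is at most `C H ^ (s - 1 + ε)`.

`NoAtypical` for `X_t` says: `X_t` has no atypical intersection with the torsion cosets, and more
generally with the cosets `η H` of all algebraic subgroups `H` of the torus by all points `η` whose
coordinates are units of the integral closure of `ℤ[Γ]` in `ℂ`: every irreducible subset of
`X_t ∩ η H` has dimension at most `dim H - r`; in particular the set `U(Y)` of the problem is empty for
all components `Y` of `X_t` (they have dimension `n - r`).

The number `(r - 1) (n - r + 1)` is the dimension of the Grassmannian of the subspaces of dimension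
`r - 1`, and to meet the tropicalization of a degenerate member, which has codimension `r`, is at least
one condition for such a subspace. The number `N` does not depend on the supports `A_j`. In
`general_position` of the starting file `TropicallyGenericFamilies` it is
`k ∏ |A_j| (|A_j| - 1) + 1` with `k ≥ r - 1`.
In the starting files the parameter space is one-dimensional.

**Proof.** A subspace `L` of dimension at most `r - 1` is contained in the image of a matrix with a
unit matrix as a minor, so it is given by `(r - 1) (n - r + 1)` numbers, and for every one of the `N`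
places a point of `L` is given by `r - 1` numbers. The `r N` differences of the orders of the coefficients
at which the minimum is attained are polynomials in these
`(r - 1) (n - r + 1) + (r - 1) N < r N` numbers, so they satisfy an algebraic relation. 1. By the Nullstellensatz
powers of the `E_l` are combinations of `D_l` and `b_ljβ`, so at a place of `ℂ` above `p` the coefficients
`c_jβ(t)` have the values `e_ljβ v(D_l(t))`, and the criterion of the starting library
(`Y199.ZF.crit`) applies. 2. follows from the counting theorem `Pool.Agent.Q170.ZP.Count.card_bad`.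
-/

set_option autoImplicit false

namespace Pool.Agent.Results.MP_c95b3b_ag.GenericOrdersIntegralPoints

open MvPolynomial
open Pool.Agent.Q170.TT (Mon needed GenericFor count)
open Pool.Agent.Results.MP_c95b3b_ag.TropicallyGenericFamilies (Trop InGeneralPosition NoAtypical)

/-- Generic systems of orders, and Zilber's conjecture for the integral members of the families with
several parameters. -/
theorem result (n r : ℕ) (hr : 1 ≤ r) (hrn : r ≤ n + 1) (A : Fin r → Finset (Fin n → ℤ))
    (hA : ∀ j, (A j).Nonempty) (M : ℕ) (hM : M = needed n r) :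
    ∃ P : MvPolynomial (Fin M × Mon A) ℚ, P ≠ 0 ∧
    (∀ e : Fin M → Fin r → (Fin n → ℤ) → ℤ, GenericFor P e →
      InGeneralPosition r (needed n r) fun l => Trop A (e l)) ∧
    (∀ (s : ℕ) (c : Fin r → (Fin n → ℤ) → MvPolynomial (Fin s) ℂ)
      (D E : Fin M → MvPolynomial (Fin s) ℤ)
      (b : Fin M → Fin r → (Fin n → ℤ) → MvPolynomial (Fin s) ℂ)
      (e : Fin M → Fin r → (Fin n → ℤ) → ℕ),
      (∀ l j, ∀ β ∈ A j,
        c j β = MvPolynomial.map (Int.castRingHom ℂ) (D l) ^ e l j β * b l j β) →
      (∀ l (t : Fin s → ℂ), aeval t (D l) = 0 → aeval t (E l) ≠ 0 →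
        ∀ j, ∀ β ∈ A j, eval t (b l j β) ≠ 0) →
      GenericFor P (fun l j β => (e l j β : ℤ)) → ∀ Γ : Set ℂ, Γ.Finite →
      (∃ Q : ℕ, ∀ t : Fin s → ℤ,
        (∀ l, eval t (D l) ≠ 0 ∧ ∃ p : ℕ, p.Prime ∧ Q < p ∧ (p : ℤ) ∣ eval t (D l) ∧
          ¬ (p : ℤ) ∣ eval t (E l)) →
        NoAtypical r Γ (Pool.Agent.Q170.TT.member A c fun j => (t j : ℂ))) ∧
      ((∀ l, 0 < (D l).totalDegree ∧ IsRelPrime (D l) (E l)) → ∀ ε : ℝ, 0 < ε →
        ∃ C : ℝ, 0 < C ∧ ∀ H : ℕ, 1 ≤ H →
          (({t : Fin s → ℤ | (∀ j, |t j| ≤ H) ∧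
            ¬ NoAtypical r Γ (Pool.Agent.Q170.TT.member A c fun j => (t j : ℂ))}.ncard : ℕ) : ℝ) ≤
            C * (H : ℝ) ^ ((s : ℝ) - 1 + ε))) := by
  obtain ⟨P, hP0, hP⟩ := Pool.Agent.Q170.TT.generic (M := M) hr hrn A
  refine ⟨P, hP0, fun e he => hP e he, ?_⟩
  intro s c D E b e hc hb he Γ hΓ
  have hgen := hP (fun l j β => (e l j β : ℤ)) he
  have hM0 : 0 < M := by
    rw [hM, needed]
    exact Nat.succ_pos _
  have hgen' : ∀ L : Submodule ℚ (Fin n → ℚ), Module.finrank ℚ L < r →
      ∃ l, ∀ w ∈ L, w ∉ Trop A (fun j β => (e l j β : ℤ)) := by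
    intro L hL
    obtain ⟨l, -, hl⟩ := hgen L hL Finset.univ (by
      rw [Finset.card_univ, Fintype.card_fin]
      exact hM)
    exact ⟨l, hl⟩
  obtain ⟨Q, hQ⟩ := Pool.Agent.Q170.TT.multiT hM0 r A hA c D E b e hc hb hgen' Γ hΓ
  refine ⟨⟨Q, hQ⟩, fun hDE ε hε => ?_⟩
  obtain ⟨C, hC, hcount⟩ := count hM0 D E hDE Q ε hε
  refine ⟨C, hC, fun H hH => le_trans ?_ (hcount H hH)⟩
  have hfin : {t : Fin s → ℤ | (∀ j, |t j| ≤ H) ∧ ¬ ∀ l, eval t (D l) ≠ 0 ∧
      ∃ p : ℕ, p.Prime ∧ Q < p ∧ (p : ℤ) ∣ eval t (D l) ∧ ¬ (p : ℤ) ∣ eval t (E l)}.Finite :=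
    (Finset.finite_toSet (Pool.Agent.Q170.ZP.Count.box s H)).subset fun t ht =>
      Pool.Agent.Q170.ZP.Count.mem_box.2 ht.1
  have h1 : {t : Fin s → ℤ | (∀ j, |t j| ≤ H) ∧
      ¬ NoAtypical r Γ (Pool.Agent.Q170.TT.member A c fun j => (t j : ℂ))} ⊆
      {t : Fin s → ℤ | (∀ j, |t j| ≤ H) ∧ ¬ ∀ l, eval t (D l) ≠ 0 ∧
      ∃ p : ℕ, p.Prime ∧ Q < p ∧ (p : ℤ) ∣ eval t (D l) ∧ ¬ (p : ℤ) ∣ eval t (E l)} :=
    fun t ht => ⟨ht.1, fun h => ht.2 (hQ t h)⟩
  exact_mod_cast Set.ncard_le_ncard h1 hfin

end Pool.Agent.Results.MP_c95b3b_ag.GenericOrdersIntegralPoints
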