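import Pool.Agent.Q280.ZU.Main

/-!
# Zilber's conjecture on intersections with tori: the maximal excess of a counterexample

`Y` is an irreducible closed subvariety of the torus `G_m^n` over `ℂ`, given by a prime ideal `P` of
`ℂ[x_1, …, x_n]` which does not contain `x_1 ⋯ x_n`. It is a counterexample with excess `c` if it does not lie in
a proper algebraic subgroup and the points of `Y` in algebraic subgroups `H` with `dim Y + dim H + c ≤ n` are
Zariski dense in `Y`. Zilber's conjecture says that there is no counterexample with excess `1`.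
-/

set_option autoImplicit false

open MvPolynomial Module Filter Pool.Agent.Q280.ZU
open scoped Topology

namespace Pool.Agent.Results.MP_c95b3b_ag.MaximalExcess

/-- Zilber's conjecture up to the error `f`: if the points of `Y` which lie in algebraic subgroups `H` with
`dim Y + dim H ≤ n - 1 - f n` are Zariski dense in `Y`, then `Y` lies in a proper algebraic subgroup. -/
def ZilberUpTo (f : ℕ → ℕ) : Prop :=
  ∀ (n : ℕ) (P : Ideal (MvPolynomial (Fin n) ℂ)), IsSubvariety P →
    (∀ g : MvPolynomial (Fin n) ℂ, (∀ x ∈ unlikely (1 + f n) P, eval x g = 0) → ∀ x ∈ points P, eval x g = 0) →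
    ∃ a : Fin n → ℤ, a ≠ 0 ∧ ∀ x ∈ points P, ∏ i, x i ^ a i = 1

/-- The maximal excess in the torus of dimension `n`. -/
noncomputable def maxExcess (n : ℕ) : ℕ := sSup {c | ∃ P : Ideal (MvPolynomial (Fin n) ℂ), Counterexample c P}

theorem zilberUpTo_iff (f : ℕ → ℕ) :
    ZilberUpTo f ↔ ∀ (n : ℕ) (P : Ideal (MvPolynomial (Fin n) ℂ)), ¬ Counterexample (1 + f n) P := by
  constructor
  · intro h n P hP
    obtain ⟨a, h1, h2⟩ := h n P hP.subvariety hP.dense
    exact h1 (hP.proper a h2)
  · intro h n P h1 h2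
    by_contra h3
    push Not at h3
    refine h n P ⟨h1, h2, fun a ha => ?_⟩
    by_contra h4
    obtain ⟨x, hx, hx2⟩ := h3 a h4
    exact hx2 (ha x hx)

theorem mono_excess {n c c' : ℕ} (h : c ≤ c') {P : Ideal (MvPolynomial (Fin n) ℂ)}
    (hP : Counterexample c' P) : Counterexample c P := by
  refine ⟨hP.subvariety, fun f hf => hP.dense f fun x hx => hf x ?_, hP.proper⟩
  obtain ⟨h1, Λ, h2, h3⟩ := hx
  refine ⟨h1, Λ, le_trans ?_ h2, h3⟩
  gcongr

theorem excess_le {n c : ℕ} {P : Ideal (MvPolynomial (Fin n) ℂ)} (hP : Counterexample c P) : c ≤ n := by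
  obtain ⟨d, hd, _⟩ := exists_dim hP.subvariety
  obtain ⟨v0, hv0⟩ := (irr_points hP.subvariety).1
  by_contra hcn
  have h1 := hP.dense 1 (fun x hx => by
    obtain ⟨_, Λ, h5, _⟩ := hx
    rw [hd] at h5
    have h6 : d + (n - finrank ℤ Λ) + c ≤ n := by exact_mod_cast h5
    omega) v0 hv0
  rw [map_one] at h1
  exact one_ne_zero h1

theorem exists_maxExcess (n : ℕ) : ∃ P : Ideal (MvPolynomial (Fin n) ℂ), Counterexample (maxExcess n) P := by
  have h0 : ∃ P : Ideal (MvPolynomial (Fin n) ℂ), Counterexample 0 P := by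
    obtain ⟨P', h, _⟩ := exists_counterexample (κ := Empty) (m := fun j => j.elim) (c := fun j => j.elim)
      (P := fun j => j.elim) (fun j => j.elim) (N := n) (by simp)
    exact ⟨P', by simpa using h⟩
  exact Nat.sSup_mem (s := {c | ∃ P : Ideal (MvPolynomial (Fin n) ℂ), Counterexample c P}) ⟨0, h0⟩
    ⟨n, fun c ⟨P, hP⟩ => excess_le hP⟩

theorem le_maxExcess {n c : ℕ} {P : Ideal (MvPolynomial (Fin n) ℂ)} (hP : Counterexample c P) : c ≤ maxExcess n :=
  le_csSup (s := {c | ∃ P : Ideal (MvPolynomial (Fin n) ℂ), Counterexample c P}) ⟨n, fun _ ⟨_, hP⟩ => excess_le hP⟩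
    ⟨P, hP⟩

theorem superadditive (m n : ℕ) : maxExcess m + maxExcess n ≤ maxExcess (m + n) := by
  obtain ⟨P, hP⟩ := exists_maxExcess m
  obtain ⟨Q, hQ⟩ := exists_maxExcess n
  obtain ⟨P', h, _⟩ := exists_counterexample (κ := Bool) (m := fun b => bif b then m else n)
    (c := fun b => bif b then maxExcess m else maxExcess n)
    (P := fun b => match b with
      | true => P
      | false => Q) (fun b => by
        cases b
        · exact hQ
        · exact hP) (N := m + n) (by simp)
  have h1 := le_maxExcess h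
  simpa using h1

theorem zilber_iff : ZilberUpTo (fun _ => 0) ↔ ∀ n, maxExcess n = 0 := by
  rw [zilberUpTo_iff]
  constructor
  · intro h n
    obtain ⟨P, hP⟩ := exists_maxExcess n
    by_contra hne
    exact h n P (mono_excess (by omega) hP)
  · intro h n P hP
    have := le_maxExcess hP
    rw [h n] at this
    omega

theorem exists_limit : ∃ θ : ℝ, Tendsto (fun n : ℕ => (maxExcess n : ℝ) / n) atTop (𝓝 θ) ∧
    ∀ n : ℕ, (maxExcess n : ℝ) ≤ θ * n := by
  have hsub : Subadditive fun n : ℕ => -(maxExcess n : ℝ) := by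
    intro m n
    have h1 : (maxExcess m : ℝ) + maxExcess n ≤ maxExcess (m + n) := by exact_mod_cast superadditive m n
    linarith
  have hb : BddBelow (Set.range fun n : ℕ => -(maxExcess n : ℝ) / n) := by
    refine ⟨-1, ?_⟩
    rintro _ ⟨n, rfl⟩
    simp only
    rcases Nat.eq_zero_or_pos n with hn | hn
    · subst hn
      simp
    · have hn' : (0 : ℝ) < n := by exact_mod_cast hn
      rw [le_div_iff₀ hn']
      obtain ⟨P, hP⟩ := exists_maxExcess n
      have h1 : (maxExcess n : ℝ) ≤ n := by exact_mod_cast excess_le hP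
      linarith
  refine ⟨-hsub.lim, ?_, fun n => ?_⟩
  · have h1 := (hsub.tendsto_lim hb).neg
    refine h1.congr fun n => ?_
    rw [neg_div, neg_neg]
  · rcases Nat.eq_zero_or_pos n with hn | hn
    · subst hn
      obtain ⟨P, hP⟩ := exists_maxExcess 0
      have h1 := excess_le hP
      have h2 : maxExcess 0 = 0 := by omega
      rw [h2]
      simp
    · have hn' : (0 : ℝ) < n := by exact_mod_cast hn
      have h1 := hsub.lim_le_div hb (n := n) (by omega)
      rw [le_div_iff₀ hn'] at h1
      linarith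

/-- **Theorem.** (1) Counterexamples `Y_j` with excess `c_j` in the tori of dimension `m_j` give a counterexample
with excess `∑ c_j` and of dimension at most `∑ dim Y_j` in every torus of dimension at least `∑ m_j`. (2) The
maximal excess is superadditive; the quotients `maxExcess n / n` converge to their supremum, which is `0` if and
only if Zilber's conjecture holds.
(3) Zilber's conjecture is equivalent to Zilber's conjecture up to the error `f`, if for every `ε > 0` infinitely
many `N` satisfy `f N ≤ ε N`. -/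
theorem result :
    (∀ (k : ℕ) (m c : Fin k → ℕ) (P : ∀ j, Ideal (MvPolynomial (Fin (m j)) ℂ)), (∀ j, Counterexample (c j) (P j)) →
      ∀ N : ℕ, ∑ j, m j ≤ N → ∃ P' : Ideal (MvPolynomial (Fin N) ℂ), Counterexample (∑ j, c j) P' ∧
        ringKrullDim (MvPolynomial (Fin N) ℂ ⧸ P') ≤ ∑ j, ringKrullDim (MvPolynomial (Fin (m j)) ℂ ⧸ P j)) ∧
    ((∀ m n : ℕ, maxExcess m + maxExcess n ≤ maxExcess (m + n)) ∧
      ∃ θ : ℝ, Tendsto (fun n : ℕ => (maxExcess n : ℝ) / n) atTop (𝓝 θ) ∧ (∀ n : ℕ, (maxExcess n : ℝ) ≤ θ * n) ∧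
        (θ = 0 ↔ ZilberUpTo fun _ => 0)) ∧
    ∀ f : ℕ → ℕ, (∀ ε : ℝ, 0 < ε → ∃ᶠ N in atTop, (f N : ℝ) ≤ ε * N) →
      (ZilberUpTo f ↔ ZilberUpTo fun _ => 0) := by
  obtain ⟨θ, h1, h2⟩ := exists_limit
  refine ⟨fun k m c P hP N hN => exists_counterexample hP hN, ⟨superadditive, θ, h1, h2, ?_⟩, fun f hf => ?_⟩
  · rw [zilber_iff]
    constructor
    · rintro rfl n
      have h3 := h2 n
      rw [zero_mul] at h3
      exact_mod_cast le_antisymm h3 (Nat.cast_nonneg _)
    · intro h
      refine tendsto_nhds_unique h1 ?_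
      simp only [h, Nat.cast_zero, zero_div]
      exact tendsto_const_nhds
  · constructor
    · intro h
      rw [zilber_iff]
      rw [zilberUpTo_iff] at h
      intro n
      by_contra hne
      have hθ : 0 < θ := by
        have h3 : (1 : ℝ) ≤ maxExcess n := by exact_mod_cast Nat.one_le_iff_ne_zero.mpr hne
        have h4 := h2 n
        by_contra hθ
        have h5 : θ * n ≤ 0 := mul_nonpos_of_nonpos_of_nonneg (not_lt.mp hθ) (Nat.cast_nonneg _)
        linarith
      have h3 : ∀ᶠ N : ℕ in atTop, θ / 2 < (maxExcess N : ℝ) / N := h1.eventually_const_lt (by linarith)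
      obtain ⟨N, h4, h5, h6⟩ := ((hf (θ / 4) (by linarith)).and_eventually
        (h3.and (eventually_ge_atTop (⌈4 / θ⌉₊ + 1)))).exists
      have hN : (4 : ℝ) / θ ≤ N := (Nat.le_ceil _).trans (by exact_mod_cast (by omega : ⌈4 / θ⌉₊ ≤ N))
      have hN0 : (0 : ℝ) < N := lt_of_lt_of_le (by positivity) hN
      rw [lt_div_iff₀ hN0] at h5
      rw [div_le_iff₀ hθ] at hN
      obtain ⟨P, hP⟩ := exists_maxExcess N
      refine h N P (mono_excess ?_ hP)
      have h7 : ((1 + f N : ℕ) : ℝ) ≤ maxExcess N := by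
        push_cast
        nlinarith
      exact_mod_cast h7
    · rw [zilberUpTo_iff, zilberUpTo_iff]
      exact fun h n P hP => h n P (mono_excess (Nat.le_add_right 1 _) hP)

end Pool.Agent.Results.MP_c95b3b_ag.MaximalExcess
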